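import Pool.Agent.H500.ME.Stm
import Pool.Agent.H139.ZO.ABL

/-!
# Project ME (helper500), part B9: closure properties of algebraic characters (helper358)
-/

set_option autoImplicit false
set_option linter.unusedSectionVars false

namespace Pool.Agent.H358.ME.ACM

open NumberField IsDedekindDomain Filter Topology
open Pool.Agent.W401.Cheb (GK IsFrob IsInert)
open Pool.Agent.H500.HC (QBar ZBar)
open Pool.Agent.Q92.AR (Dv Ray prin)
open Pool.Agent.H500.ME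

section
variable {L : Type} [Field L] [NumberField L]

theorem ray_mul_left {M M' : ℕ} {x : Lˣ} (h : x ∈ Ray L (M * M')) : x ∈ Ray L M := by
  refine ⟨fun v hv => ?_, h.2⟩
  have h1 := h.1 v (by rw [Nat.cast_mul]; exact v.asIdeal.mul_mem_right _ hv)
  refine h1.trans ?_
  rw [Nat.cast_mul, map_mul]
  refine mul_le_of_le_one_right' ?_
  have h2 := v.valuation_le_one (K := L) (M' : 𝓞 L)
  simpa using h2

theorem ray_mul_right {M M' : ℕ} {x : Lˣ} (h : x ∈ Ray L (M * M')) : x ∈ Ray L M' := by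
  rw [mul_comm] at h
  exact ray_mul_left h

theorem typU_add (t t' : (L →+* QBar) → ℤ) (x : Lˣ) : typU (t + t') x = typU t x * typU t' x := by
  unfold typU
  rw [← Finset.prod_mul_distrib]
  refine Finset.prod_congr rfl fun σ _ => ?_
  rw [Pi.add_apply, zpow_add]

theorem typU_neg (t : (L →+* QBar) → ℤ) (x : Lˣ) : typU (-t) x = (typU t x)⁻¹ := by
  unfold typU
  rw [← Finset.prod_inv_distrib]
  refine Finset.prod_congr rfl fun σ _ => ?_
  rw [Pi.neg_apply, zpow_neg]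

theorem at1_add (φ φ' : Dv L →+ Additive QBarˣ) (w : HeightOneSpectrum (𝓞 L)) :
    at1 (φ + φ') w = at1 φ w * at1 φ' w := rfl

theorem at1_neg (φ : Dv L →+ Additive QBarˣ) (w : HeightOneSpectrum (𝓞 L)) :
    at1 (-φ) w = (at1 φ w)⁻¹ :=
  Units.val_inv_eq_inv_val _

theorem at1_ne (φ : Dv L →+ Additive QBarˣ) (w : HeightOneSpectrum (𝓞 L)) : at1 φ w ≠ 0 :=
  Units.ne_zero _

theorem norm_pos (w : HeightOneSpectrum (𝓞 L)) : (0 : ℝ) < (Ideal.absNorm w.asIdeal : ℝ) := by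
  have h1 : Ideal.absNorm w.asIdeal ≠ 0 := by
    rw [Ne, Ideal.absNorm_eq_zero_iff]
    exact w.ne_bot
  exact_mod_cast Nat.pos_of_ne_zero h1

theorem wt_add {m m' : ℤ} {φ φ' : Dv L →+ Additive QBarˣ} (h : HasWt m φ) (h' : HasWt m' φ') :
    HasWt (m + m') (φ + φ') := by
  intro τ
  filter_upwards [h τ, h' τ] with w h1 h2
  rw [at1_add, map_mul, norm_mul, mul_pow, h1, h2, zpow_add₀ (norm_pos w).ne']

theorem wt_neg {m : ℤ} {φ : Dv L →+ Additive QBarˣ} (h : HasWt m φ) : HasWt (-m) (-φ) := by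
  intro τ
  filter_upwards [h τ] with w h1
  rw [at1_neg, map_inv₀, norm_inv, inv_pow, h1, zpow_neg]

variable {ℓ : ℕ} [Fact ℓ.Prime] {κ : QBar →+* PadicAlgCl ℓ} {M M' : ℕ}
  {t t' : (L →+* QBar) → ℤ} {φ φ' : Dv L →+ Additive QBarˣ} {Φ Φ' : GK L →* (PadicAlgCl ℓ)ˣ}

theorem not_mem_mul {w : HeightOneSpectrum (𝓞 L)} (hw : ((M * M' : ℕ) : 𝓞 L) ∉ w.asIdeal) :
    (M : 𝓞 L) ∉ w.asIdeal ∧ (M' : 𝓞 L) ∉ w.asIdeal := by
  rw [Nat.cast_mul] at hw
  exact ⟨fun h => hw (w.asIdeal.mul_mem_right _ h), fun h => hw (w.asIdeal.mul_mem_left _ h)⟩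

theorem ac_mul (h : IsAC κ M t φ Φ) (h' : IsAC κ M' t' φ' Φ') :
    IsAC κ (M * M') (t + t') (φ + φ') (Φ * Φ') where
  pos := Nat.mul_pos h.pos h'.pos
  cont := h.cont.mul h'.cont
  alg x hx := by
    rw [AddMonoidHom.add_apply, h.alg x (ray_mul_left hx), h'.alg x (ray_mul_right hx), typU_add,
      ofMul_mul]
  inert w hw s hs := by
    rw [MonoidHom.mul_apply, h.inert w (not_mem_mul hw).1 s hs, h'.inert w (not_mem_mul hw).2 s hs,
      mul_one]
  frob w hw s hs := by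
    rw [MonoidHom.mul_apply, Units.val_mul, h.frob w (not_mem_mul hw).1 s hs,
      h'.frob w (not_mem_mul hw).2 s hs, at1_add, map_mul]

theorem ac_inv (h : IsAC κ M t φ Φ) : IsAC κ M (-t) (-φ) Φ⁻¹ where
  pos := h.pos
  cont := by
    have h1 : (fun s => ((Φ⁻¹ s : (PadicAlgCl ℓ)ˣ) : PadicAlgCl ℓ)) =
        fun s => ((Φ s : (PadicAlgCl ℓ)ˣ) : PadicAlgCl ℓ)⁻¹ := by
      funext s
      rw [MonoidHom.inv_apply, Units.val_inv_eq_inv_val]
    rw [h1]
    exact h.cont.inv₀ fun s => (Φ s).ne_zero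
  alg x hx := by
    rw [AddMonoidHom.neg_apply, h.alg x hx, typU_neg, ofMul_inv]
  inert w hw s hs := by
    rw [MonoidHom.inv_apply, h.inert w hw s hs, inv_one]
  frob w hw s hs := by
    rw [MonoidHom.inv_apply, Units.val_inv_eq_inv_val, h.frob w hw s hs, at1_neg, map_inv₀]

theorem ac_iff (h : IsAC κ M t φ Φ) (h' : IsAC κ M' t' φ' Φ') :
    (∀ᶠ w : HeightOneSpectrum (𝓞 L) in cofinite, at1 φ w = at1 φ' w) ↔ Φ = Φ' := by
  constructor
  · intro hB
    ext g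
    by_contra hne
    have hf : Continuous fun s : GK L => (Φ s : PadicAlgCl ℓ) - (Φ' s : PadicAlgCl ℓ) :=
      h.cont.sub h'.cont
    have hδ : 0 < ‖(Φ g : PadicAlgCl ℓ) - (Φ' g : PadicAlgCl ℓ)‖ :=
      norm_pos_iff.2 (sub_ne_zero.2 hne)
    obtain ⟨V, hVn, hVo, hV⟩ := Pool.Agent.H139.ZO.ABL.nhd _ hf g hδ
    obtain ⟨w, s, hwB, hwM, hs, hsV⟩ := Pool.Agent.H139.ZO.frob_ex V hVn hVo g hB
      (Nat.mul_pos h.pos h'.pos)
    have h1 := hV _ hsV
    rw [mul_inv_cancel_left] at h1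
    have h2 : at1 φ w = at1 φ' w := by
      by_contra h3
      exact hwB h3
    rw [h.frob w (not_mem_mul hwM).1 s hs, h'.frob w (not_mem_mul hwM).2 s hs, h2, sub_self,
      zero_sub, norm_neg] at h1
    exact lt_irrefl _ h1
  · rintro rfl
    have h1 : {v : HeightOneSpectrum (𝓞 L) | ((M * M' : ℕ) : 𝓞 L) ∈ v.asIdeal}.Finite :=
      Pool.Agent.H500.Kum.fin_mem (E := L) (x := ((M * M' : ℕ) : 𝓞 L))
        (by exact_mod_cast (Nat.mul_pos h.pos h'.pos).ne')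
    have h2 : ∀ᶠ w : HeightOneSpectrum (𝓞 L) in cofinite, ((M * M' : ℕ) : 𝓞 L) ∉ w.asIdeal :=
      h1.eventually_cofinite_notMem
    filter_upwards [h2] with w hw
    obtain ⟨s, hs⟩ := (Pool.Agent.W401.Frob.main L).1 w
    apply κ.injective
    rw [← h.frob w (not_mem_mul hw).1 s hs, ← h'.frob w (not_mem_mul hw).2 s hs]

end

theorem main : S_ACM := fun _ _ _ _ _ _ _ _ _ _ _ _ _ _ h h' =>
  ⟨ac_mul h h', ac_inv h, fun _ _ => wt_add, fun _ => wt_neg, ac_iff h h'⟩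

end Pool.Agent.H358.ME.ACM
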